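import Pool.Agent.Helper937.McsMain
import Pool.Agent.Helper937.McsForce

/-!
# Non-uniform Eberlein compacta whose `C(K)` has Pettis = McShane

The positive answer holds in an extension without new subsets of `ℕ` of any model of set theory,
and it holds whenever the union of any `ℵ₁` null sets of reals is null.
-/

set_option autoImplicit false

namespace Pool.Agent.Results.MP_9f8c44_an.ConsistentlyYes

open MeasureTheory Set Cardinal
open Pool.Agent.Helper937.Mcs (SD NonReflecting)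

/-- The positive answer to the question (the proposition of the frozen statement `S03719`). -/
def PositiveAnswer : Prop :=
  ∃ (K : Type) (_ : TopologicalSpace K) (_ : CompactSpace K) (_ : T2Space K),
    (∃ (X : Type) (_ : NormedAddCommGroup X) (_ : NormedSpace ℝ X) (_ : CompleteSpace X)
        (e : K → WeakSpace ℝ X), Topology.IsEmbedding e) ∧
    (¬ ∃ (H : Type) (_ : NormedAddCommGroup H) (_ : InnerProductSpace ℝ H) (_ : CompleteSpace H)
        (e : K → WeakSpace ℝ H), Topology.IsEmbedding e) ∧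
    ∀ f : ℝ → C(K, ℝ),
      ((∀ φ : C(K, ℝ) →L[ℝ] ℝ,
          MeasureTheory.IntegrableOn (fun t => φ (f t)) (Set.Icc (0:ℝ) 1)) ∧
       (∀ A : Set ℝ, MeasurableSet A → A ⊆ Set.Icc (0:ℝ) 1 →
          ∃ x : C(K, ℝ), ∀ φ : C(K, ℝ) →L[ℝ] ℝ, φ x = ∫ t in A, φ (f t))) →
      BoxIntegral.Integrable
        (⟨fun _ => (0:ℝ), fun _ => (1:ℝ), fun _ => (zero_lt_one : (0:ℝ) < 1)⟩ :
          BoxIntegral.Box (Fin 1))
        BoxIntegral.IntegrationParams.McShane (fun x => f (x 0))
        BoxIntegral.BoxAdditiveMap.volume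

/-- **Main theorem** (no hypothesis). -/
theorem result :
    (∃ (Θ : Type) (_ : LinearOrder Θ) (η : Θ → ℕ → Θ) (P : Type) (_ : Preorder P),
      Function.Injective η ∧ Nonempty P ∧ ∀ p : P, p ∈ NonReflecting P η) ∧
    (∀ (Θ β : Type) [LinearOrder Θ] (η : Θ → ℕ → β), Function.Injective η →
      (∀ g : Set ℕ → Θ, ∃ γ, ∀ A, g A < γ) →
      (∃ S : Set Θ, (∀ γ, SD η (S ∩ Iio γ)) ∧ ¬ SD η S) → PositiveAnswer) ∧
    ((∀ (I : Type) (N : I → Set ℝ), #I ≤ ℵ₁ → (∀ i, volume (N i) = 0) →
      volume (⋃ i, N i) = 0) → PositiveAnswer) := by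
  refine ⟨Pool.Agent.Helper937.Mcs.exists_forcing, ?_, ?_⟩
  · intro Θ β _ η hη hb ⟨S, h1, h2⟩
    exact Pool.Agent.Helper937.Mcs.positive_of_nonReflecting η hη hb S h1 h2
  · intro h
    exact Pool.Agent.Helper937.Mcs.positive_of_add h

end Pool.Agent.Results.MP_9f8c44_an.ConsistentlyYes
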